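import Pool.Agent.Run7.h74.UC.Iface

/-! Project UC (helper74), piece LIM (helper13): mean values of finite Dirichlet series. -/

set_option autoImplicit false

namespace Run7.h13.UC

open Pool.Agent.Run7.h74.UC
open Filter Topology MeasureTheory Complex


theorem key (m n : ℕ) (hm : 1 ≤ m) (hn : 1 ≤ n) (t : ℝ) :
    (m : ℂ) ^ (-(t * I)) * (starRingEnd ℂ) ((n : ℂ) ^ (-(t * I))) =
      cexp ((((Real.log n - Real.log m : ℝ) : ℂ) * I) * t) := by
  have hm0 : (m : ℂ) ≠ 0 := by exact_mod_cast (by omega : m ≠ 0)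
  have hn0 : (n : ℂ) ≠ 0 := by exact_mod_cast (by omega : n ≠ 0)
  rw [Complex.cpow_def_of_ne_zero hm0, Complex.cpow_def_of_ne_zero hn0, ← Complex.exp_conj,
    ← Complex.exp_add, ← Complex.natCast_log, ← Complex.natCast_log]
  congr 1
  simp only [map_mul, map_neg, Complex.conj_ofReal, Complex.conj_I]
  push_cast
  ring

theorem mean (m n : ℕ) (hm : 1 ≤ m) (hn : 1 ≤ n) :
    Tendsto (fun V : ℝ => ((V⁻¹ : ℝ) : ℂ) * ∫ t in V..(2 * V),
      (m : ℂ) ^ (-(t * I)) * (starRingEnd ℂ) ((n : ℂ) ^ (-(t * I)))) atTop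
      (𝓝 (if m = n then 1 else 0)) := by
  simp only [key m n hm hn]
  by_cases hmn : m = n
  · subst hmn
    rw [if_pos rfl]
    refine tendsto_const_nhds.congr' ?_
    filter_upwards [eventually_gt_atTop (0 : ℝ)] with V hV
    have hV0 : (V : ℂ) ≠ 0 := by exact_mod_cast hV.ne'
    simp only [sub_self, Complex.ofReal_zero, zero_mul, Complex.exp_zero,
      intervalIntegral.integral_const]
    rw [Complex.real_smul]
    push_cast
    field_simp
    ring
  · rw [if_neg hmn]
    set θ : ℝ := Real.log n - Real.log m with hθ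
    have hθ0 : θ ≠ 0 := by
      intro h0
      have h1 : Real.log n = Real.log m := by linarith
      have h2 := Real.log_injOn_pos (Set.mem_Ioi.2 (by exact_mod_cast hn))
        (Set.mem_Ioi.2 (by exact_mod_cast hm)) h1
      exact hmn (by exact_mod_cast h2.symm)
    have hc : ((θ : ℂ) * I) ≠ 0 := mul_ne_zero (by exact_mod_cast hθ0) Complex.I_ne_zero
    have hb : ∀ V : ℝ, ‖∫ t in V..(2 * V), cexp (((θ : ℂ) * I) * t)‖ ≤ 2 / |θ| := by
      intro V
      rw [integral_exp_mul_complex hc, norm_div]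
      have h1 : ‖(θ : ℂ) * I‖ = |θ| := by
        rw [norm_mul, Complex.norm_I, mul_one, Complex.norm_real, Real.norm_eq_abs]
      have h2 : ∀ x : ℝ, ‖cexp (((θ : ℂ) * I) * x)‖ = 1 := by
        intro x
        have : ((θ : ℂ) * I) * x = ((θ * x : ℝ) : ℂ) * I := by push_cast; ring
        rw [this, Complex.norm_exp_ofReal_mul_I]
      rw [h1]
      apply div_le_div_of_nonneg_right _ (abs_nonneg θ)
      refine (norm_sub_le _ _).trans ?_
      rw [h2, h2]
      norm_num
    rw [tendsto_zero_iff_norm_tendsto_zero]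
    have h3 : Tendsto (fun V : ℝ => |V⁻¹| * (2 / |θ|)) atTop (𝓝 0) := by
      have h4 : Tendsto (fun V : ℝ => |V⁻¹|) atTop (𝓝 0) := by
        have := (tendsto_inv_atTop_zero (𝕜 := ℝ)).abs
        rwa [abs_zero] at this
      have h5 := h4.mul_const (2 / |θ|)
      rwa [zero_mul] at h5
    refine squeeze_zero (fun V => norm_nonneg _) (fun V => ?_) h3
    rw [norm_mul, Complex.norm_real, Real.norm_eq_abs]
    exact mul_le_mul_of_nonneg_left (hb V) (abs_nonneg _)

theorem cont_term (m n : ℕ) (hm : 1 ≤ m) (hn : 1 ≤ n) (c : ℂ) : Continuous (fun t : ℝ =>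
    c * ((m : ℂ) ^ (-(t * I)) * (starRingEnd ℂ) ((n : ℂ) ^ (-(t * I))))) := by
  simp only [key m n hm hn]
  fun_prop

theorem Fd_eq {f : ℕ → ℂ} {s : Finset ℕ} (hs : ∀ n, n ∉ s → f n = 0) (t : ℝ) :
    Fd f t = ∑ n ∈ s, f n * (n : ℂ) ^ (-(t * I)) := by
  unfold Fd
  exact tsum_eq_sum fun n hn => by rw [hs n hn, zero_mul]

theorem t_LIM : S_LIM := by
  classical
  intro f g hf hg
  set s : Finset ℕ := hf.2.toFinset ∪ hg.2.toFinset with hs
  have hfs : ∀ n, n ∉ s → f n = 0 := by
    intro n hn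
    by_contra h
    exact hn (Finset.mem_union_left _ (hf.2.mem_toFinset.2 h))
  have hgs : ∀ n, n ∉ s → g n = 0 := by
    intro n hn
    by_contra h
    exact hn (Finset.mem_union_right _ (hg.2.mem_toFinset.2 h))
  have hs1 : ∀ n ∈ s, 1 ≤ n := by
    intro n hn
    by_contra h
    have h0 : n = 0 := by omega
    subst h0
    rcases Finset.mem_union.1 hn with h1 | h1
    · exact (hf.2.mem_toFinset.1 h1) hf.1
    · exact (hg.2.mem_toFinset.1 h1) hg.1
  have hprod : ∀ t : ℝ, Fd f t * (starRingEnd ℂ) (Fd g t) =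
      ∑ m ∈ s, ∑ n ∈ s, (f m * (starRingEnd ℂ) (g n)) *
        ((m : ℂ) ^ (-(t * I)) * (starRingEnd ℂ) ((n : ℂ) ^ (-(t * I)))) := by
    intro t
    rw [Fd_eq hfs, Fd_eq hgs, map_sum, Finset.sum_mul_sum]
    refine Finset.sum_congr rfl fun m _ => Finset.sum_congr rfl fun n _ => ?_
    rw [map_mul]
    ring
  have hint : ∀ V : ℝ, ((V⁻¹ : ℝ) : ℂ) * ∫ t in V..(2 * V), Fd f t * (starRingEnd ℂ) (Fd g t) =
      ∑ m ∈ s, ∑ n ∈ s, (f m * (starRingEnd ℂ) (g n)) * (((V⁻¹ : ℝ) : ℂ) * ∫ t in V..(2 * V),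
        (m : ℂ) ^ (-(t * I)) * (starRingEnd ℂ) ((n : ℂ) ^ (-(t * I)))) := by
    intro V
    simp only [hprod]
    rw [intervalIntegral.integral_finsetSum, Finset.mul_sum]
    · refine Finset.sum_congr rfl fun m hm => ?_
      rw [intervalIntegral.integral_finsetSum, Finset.mul_sum]
      · refine Finset.sum_congr rfl fun n hn => ?_
        rw [intervalIntegral.integral_const_mul]
        ring
      · intro n hn
        exact (cont_term m n (hs1 m hm) (hs1 n hn) _).intervalIntegrable _ _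
    · intro m hm
      exact (continuous_finsetSum _ fun n hn =>
        cont_term m n (hs1 m hm) (hs1 n hn) _).intervalIntegrable _ _
  simp only [hint]
  have hlim : ∑' n, f n * (starRingEnd ℂ) (g n) =
      ∑ m ∈ s, ∑ n ∈ s, (f m * (starRingEnd ℂ) (g n)) * (if m = n then 1 else 0) := by
    rw [tsum_eq_sum (s := s) fun n hn => by rw [hfs n hn, zero_mul]]
    refine Finset.sum_congr rfl fun m hm => ?_
    rw [Finset.sum_eq_single m]
    · rw [if_pos rfl, mul_one]
    · intro n _ hne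
      rw [if_neg (Ne.symm hne), mul_zero]
    · intro h
      exact absurd hm h
  rw [hlim]
  exact tendsto_finsetSum _ fun m hm => tendsto_finsetSum _ fun n hn =>
    (mean m n (hs1 m hm) (hs1 n hn)).const_mul _

end Run7.h13.UC
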